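import Pool.Agent.Lib.MP_7f581e_U.C.Spec1

/-!
# C41, Block C: all finitely generated subrings of `k((t))` have points in `k` (helper12)
-/

set_option autoImplicit false

namespace MP7U

open Polynomial

namespace AllCM

theorem exi {A Λ : Type} [CommRing A] [IsDomain A] [Field Λ] (φ : A →+* Λ)
    (hφ : Function.Injective φ) :
    ∃ 𝓗 : Subfield Λ, (∀ z, z ∈ 𝓗 ↔ ∃ f : A[X], f ≠ 0 ∧ eval₂ φ z f = 0) ∧
      (∀ z, (∃ f : 𝓗[X], f ≠ 0 ∧ eval₂ 𝓗.subtype z f = 0) → z ∈ 𝓗) := by
  letI := φ.toAlgebra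
  haveI : FaithfulSMul A Λ := (faithfulSMul_iff_algebraMap_injective A Λ).2 hφ
  letI : Algebra (FractionRing A) Λ := FractionRing.liftAlgebra A Λ
  have key : ∀ z : Λ, z ∈ algebraicClosure (FractionRing A) Λ ↔ IsAlgebraic A z := fun z => by
    rw [mem_algebraicClosure_iff, IsFractionRing.isAlgebraic_iff A (FractionRing A) Λ]
  refine ⟨(algebraicClosure (FractionRing A) Λ).toSubfield, fun z => key z, fun z hz => ?_⟩
  obtain ⟨f, hf, h⟩ := hz
  have h1 : IsAlgebraic (algebraicClosure (FractionRing A) Λ) z := ⟨f, hf, h⟩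
  exact mem_algebraicClosure_iff.2 (h1.restrictScalars (FractionRing A))

theorem kt_eq (k : Type) [Field k] :
    kt k = (HahnSeries.ofPowerSeries ℤ k).comp (Polynomial.coeToPowerSeries.ringHom) := by
  apply Polynomial.ringHom_ext
  · intro c
    have h : kt k (C c) = algebraMap k (LaurentSeries k) c := by simp [kt]
    rw [h, RingHom.comp_apply, Polynomial.coeToPowerSeries.ringHom_apply, Polynomial.coe_C,
      HahnSeries.ofPowerSeries_C]
    first
      | rfl
      | exact (HahnSeries.algebraMap_apply' ℤ c).trans (by simp)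
  · simp [kt, HahnSeries.ofPowerSeries_X]

theorem kt_inj (k : Type) [Field k] : Function.Injective (kt k) := by
  rw [kt_eq]
  exact HahnSeries.ofPowerSeries_injective.comp (Polynomial.coe_injective k)

theorem kt_C {k : Type} [Field k] (c : k) : kt k (C c) = HahnSeries.C c := by
  rw [kt_eq]
  simp [HahnSeries.ofPowerSeries_C]

theorem kt_X {k : Type} [Field k] : kt k X = HahnSeries.single 1 1 := by
  rw [kt_eq]
  simp [HahnSeries.ofPowerSeries_X]

end AllCM

open AllCM in
theorem cAllC (h1 : SpcCStmt) (h2 : CurCStmt) : AllCStmt := by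
  intro k _ _ hk S
  obtain ⟨𝓗, hm, hcl⟩ := exi (kt k) (kt_inj k)
  have hlin : ∀ a : k[X], kt k a ∈ 𝓗 := fun a => by
    refine (hm _).2 ⟨X - C a, X_sub_C_ne_zero a, ?_⟩
    rw [eval₂_sub, eval₂_X, eval₂_C, sub_self]
  obtain ⟨ρ, hρ⟩ := h1 k 𝓗 (fun c => by rw [← kt_C]; exact hlin _)
    (by rw [← kt_X]; exact hlin _) hcl S
  classical
  set S' : Finset (LaurentSeries k) :=
    S.attach.image fun s => ρ ⟨s.1, Subring.subset_closure s.2⟩ with hS'
  obtain ⟨π⟩ := h2 k hk S' (fun s hs => by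
    obtain ⟨a, -, rfl⟩ := Finset.mem_image.1 hs
    exact (hm _).1 (hρ _))
  have h3 : ∀ x : cl S, ρ x ∈ cl S' := by
    rintro ⟨x, hx⟩
    induction hx using Subring.closure_induction with
    | mem x hx =>
      exact Subring.subset_closure (Finset.mem_coe.2 (Finset.mem_image.2
        ⟨⟨x, hx⟩, Finset.mem_attach _ _, rfl⟩))
    | zero =>
      have : ρ (0 : cl S) = 0 := map_zero ρ
      have h := zero_mem (cl S')
      rw [← this] at h
      exact h
    | one =>
      have : ρ (1 : cl S) = 1 := map_one ρ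
      have h := one_mem (cl S')
      rw [← this] at h
      exact h
    | add x y hx hy h1 h2 =>
      have : ρ (⟨x, hx⟩ + ⟨y, hy⟩) = ρ ⟨x, hx⟩ + ρ ⟨y, hy⟩ := map_add ρ _ _
      have h := add_mem h1 h2
      rw [← this] at h
      exact h
    | neg x hx h1 =>
      have : ρ (-⟨x, hx⟩) = -ρ ⟨x, hx⟩ := map_neg ρ _
      have h := neg_mem h1
      rw [← this] at h
      exact h
    | mul x y hx hy h1 h2 =>
      have : ρ (⟨x, hx⟩ * ⟨y, hy⟩) = ρ ⟨x, hx⟩ * ρ ⟨y, hy⟩ := map_mul ρ _ _
      have h := mul_mem h1 h2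
      rw [← this] at h
      exact h
  exact ⟨π.comp (ρ.codRestrict (cl S') h3)⟩

end MP7U
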