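import Pool.Agent.Lib.MP_7f581e_U.C.Spec1

/-!
# C41 (MP_7f581e_nt), C/AppC: approximation (helper25, task 12206)
-/

set_option autoImplicit false

namespace MP7U

open Polynomial

namespace AppCM

theorem zp {k : Type} [Field k] (m : ℤ) :
    (HahnSeries.single 1 1 : LaurentSeries k) ^ m = HahnSeries.single m 1 := by
  have hn : ∀ n : ℕ, (HahnSeries.single 1 1 : LaurentSeries k) ^ n =
      HahnSeries.single (n : ℤ) 1 := fun n => by
    rw [HahnSeries.single_pow, one_pow]
    simp
  obtain ⟨n, rfl | rfl⟩ := m.eq_nat_or_neg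
  · rw [zpow_natCast, hn]
  · rw [zpow_neg, zpow_natCast, hn]
    apply inv_eq_of_mul_eq_one_left
    rw [HahnSeries.single_mul_single, mul_one, neg_add_cancel]
    rfl

end AppCM

open AppCM in
theorem cAppC : AppCStmt := by
  intro k _ 𝓗 hC ht z N
  have hs : ∀ (m : ℤ) (c : k), (HahnSeries.single m c : LaurentSeries k) ∈ 𝓗 := by
    intro m c
    have h1 : (HahnSeries.single m c : LaurentSeries k) =
        HahnSeries.C c * (HahnSeries.single 1 1 : LaurentSeries k) ^ m := by
      rw [zp, HahnSeries.C_apply, HahnSeries.single_mul_single, zero_add, mul_one]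
    rw [h1]
    exact mul_mem (hC c) (zpow_mem ht m)
  refine ⟨∑ m ∈ Finset.Ico z.order N, HahnSeries.single m (z.coeff m),
    sum_mem fun m _ => hs m _, ?_⟩
  intro m hm
  rw [HahnSeries.coeff_sub, HahnSeries.coeff_sum, sub_eq_zero]
  by_cases h : z.order ≤ m
  · rw [Finset.sum_eq_single m]
    · exact HahnSeries.coeff_single_same _ _
    · intro b _ hb
      exact HahnSeries.coeff_single_of_ne hb.symm
    · intro h'
      exact absurd (Finset.mem_Ico.2 ⟨h, hm⟩) h'
  · rw [HahnSeries.coeff_eq_zero_of_lt_order (not_le.1 h)]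
    apply Finset.sum_eq_zero
    intro b hb
    refine HahnSeries.coeff_single_of_ne ?_
    rintro rfl
    exact h (Finset.mem_Ico.1 hb).1

end MP7U
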