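import Pool.Agent.Lib.MP_7f581e_U.C.Spec1

/-!
# C41, Block C: polynomials are continuous (helper12)
-/

set_option autoImplicit false

namespace MP7U

open Polynomial

namespace ConCM

variable {k : Type} [Field k]

theorem mono {a b : ℤ} (h : a ≤ b) {z : LaurentSeries k} (hz : Cls b z) : Cls a z :=
  fun m hm => hz m (hm.trans_le h)

theorem add {a : ℤ} {x y : LaurentSeries k} (hx : Cls a x) (hy : Cls a y) : Cls a (x + y) :=
  fun m hm => by rw [HahnSeries.coeff_add, hx m hm, hy m hm, add_zero]

theorem mul {a b : ℤ} {x y : LaurentSeries k} (hx : Cls a x) (hy : Cls b y) :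
    Cls (a + b) (x * y) := fun m hm => by
  rw [HahnSeries.coeff_mul]
  refine Finset.sum_eq_zero fun ij hij => ?_
  have h := (Finset.mem_addAntidiagonal.1 hij).2.2
  by_cases h1 : ij.1 < a
  · rw [hx _ h1, zero_mul]
  · rw [hy _ (by omega), mul_zero]

theorem exi (z : LaurentSeries k) : ∃ a : ℤ, Cls a z :=
  ⟨z.order, fun _ hm => HahnSeries.coeff_eq_zero_of_lt_order hm⟩

end ConCM

open ConCM in
theorem cConC : ConCStmt := by
  intro k _ d Q z
  induction Q using MvPolynomial.induction_on with
  | C a =>
    intro N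
    refine ⟨0, fun z' _ m _ => ?_⟩
    rw [MvPolynomial.eval_C, MvPolynomial.eval_C, sub_self]
    rfl
  | add p q hp hq =>
    intro N
    obtain ⟨M1, h1⟩ := hp N
    obtain ⟨M2, h2⟩ := hq N
    refine ⟨max M1 M2, fun z' hz => ?_⟩
    rw [map_add, map_add, add_sub_add_comm]
    exact add (h1 z' fun i => mono (le_max_left _ _) (hz i))
      (h2 z' fun i => mono (le_max_right _ _) (hz i))
  | mul_X p i hp =>
    intro N
    obtain ⟨A, hA⟩ := exi (z i)
    obtain ⟨A', hA'⟩ := exi (MvPolynomial.eval z p)
    obtain ⟨M, hM⟩ := hp (N - A)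
    refine ⟨max M (max A (N - A')), fun z' hz => ?_⟩
    rw [map_mul, map_mul, MvPolynomial.eval_X, MvPolynomial.eval_X]
    have e : MvPolynomial.eval z' p * z' i - MvPolynomial.eval z p * z i =
      (MvPolynomial.eval z' p - MvPolynomial.eval z p) * z' i +
        MvPolynomial.eval z p * (z' i - z i) := by ring
    rw [e]
    have h1 : Cls A (z' i) := by
      have := add (mono (le_max_left _ _ |>.trans (le_max_right M _)) (hz i)) hA
      rwa [sub_add_cancel] at this
    refine add ?_ ?_
    · have := mul (hM z' fun i => mono (le_max_left _ _) (hz i)) h1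
      rwa [sub_add_cancel] at this
    · have := mul hA' (mono (le_max_right _ _ |>.trans (le_max_right M _)) (hz i))
      rwa [add_sub_cancel] at this

end MP7U
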