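import Pool.Agent.Lib.MP_7f581e_U.C.Spec1

/-!
# C41 (MP_7f581e_nt), Block C, CurC: curves
-/

set_option autoImplicit false

namespace MP7U

open Polynomial

namespace CurCM

private theorem gen (h2 : GenBStmt) (h3 : DenBStmt) (h4 : TrBStmt) {k Λ : Type} [Field k]
    [CharZero k] [Field Λ] (hP : PAC k) (φ : RatFunc k →+* Λ)
    (hreg : ∀ x : Λ, (∃ f : k[X], f ≠ 0 ∧ eval₂ (φ.comp (algebraMap k (RatFunc k))) x f = 0) →
      ∃ c : k, φ (algebraMap k (RatFunc k) c) = x)
    (S : Finset Λ) (hS : ∀ s ∈ S, ∃ f : (RatFunc k)[X], f ≠ 0 ∧ eval₂ φ s f = 0) :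
    Nonempty (cl S →+* k) := by
  let _ : Algebra (RatFunc k) Λ := φ.toAlgebra
  have hint : ∀ s ∈ (S : Set Λ), IsIntegral (RatFunc k) s := by
    intro s hs
    rw [← isAlgebraic_iff_isIntegral]
    exact hS s (by exact_mod_cast hs)
  let L := IntermediateField.adjoin (RatFunc k) (S : Set Λ)
  have hfd : FiniteDimensional (RatFunc k) L := IntermediateField.finiteDimensional_adjoin hint
  have hregL : RegL k L := by
    rintro x ⟨f, hf0, hf⟩
    obtain ⟨c, hc⟩ := hreg (algebraMap L Λ x) ⟨f, hf0, by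
      have h := congrArg (algebraMap L Λ) hf
      rw [hom_eval₂, map_zero] at h
      exact h⟩
    exact ⟨c, (algebraMap L Λ).injective hc⟩
  obtain ⟨θ, m, hm, hdeg, hroot, hdvd, habs⟩ := h2 k L hfd hregL
  have hSL : ∀ s : S, (s : Λ) ∈ L := fun s =>
    IntermediateField.subset_adjoin _ _ (by exact_mod_cast s.2)
  obtain ⟨d, G, hd, hG⟩ := h3 k L θ m hfd hm hdeg hdvd S (fun s => (⟨(s : Λ), hSL s⟩ : L))
  obtain ⟨a, b, ha, hb⟩ := hP m hm (by rw [hdeg]; exact Module.finrank_pos) habs d hd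
  obtain ⟨ψ, -⟩ := h4 k[X] L k (strL k L) θ d m hdvd (evalRingHom a) b ha (by
    have h := hom_eval₂ m (RingHom.id k[X]) (evalRingHom a) (C b)
    rw [RingHom.comp_id, coe_evalRingHom, eval_C] at h
    rw [← h]
    exact hb)
  have hle : cl S ≤ (TT (strL k L) θ d).map (algebraMap L Λ) := by
    refine Subring.closure_le.mpr fun s hs => ?_
    refine ⟨⟨s, hSL ⟨s, by exact_mod_cast hs⟩⟩, ?_, rfl⟩
    exact ⟨1, G ⟨s, by exact_mod_cast hs⟩, by rw [pow_one]; exact hG ⟨s, by exact_mod_cast hs⟩⟩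
  let e := (TT (strL k L) θ d).equivMapOfInjective (algebraMap L Λ) (algebraMap L Λ).injective
  exact ⟨ψ.comp ((e.symm : _ →+* TT (strL k L) θ d).comp (Subring.inclusion hle))⟩

private theorem kt_C (k : Type) [Field k] (c : k) :
    kt k (C c) = (HahnSeries.C c : LaurentSeries k) := by
  have h : kt k (C c) = aeval (HahnSeries.single 1 1 : LaurentSeries k) (C c) := rfl
  rw [h, aeval_C, LaurentSeries.algebraMap_apply]

private theorem kt_X (k : Type) [Field k] : kt k X = (HahnSeries.single 1 1 : LaurentSeries k) := by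
  have h : kt k X = aeval (HahnSeries.single 1 1 : LaurentSeries k) X := rfl
  rw [h, aeval_X]

private theorem kt_injective (k : Type) [Field k] : Function.Injective (kt k) := by
  rw [injective_iff_map_eq_zero]
  intro p hp
  have h : kt k = (HahnSeries.ofPowerSeries ℤ k).comp (Polynomial.coeToPowerSeries.ringHom) := by
    refine Polynomial.ringHom_ext (fun c => ?_) ?_
    · rw [RingHom.comp_apply, Polynomial.coeToPowerSeries.ringHom_apply, Polynomial.coe_C,
        HahnSeries.ofPowerSeries_C, kt_C]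
    · rw [RingHom.comp_apply, Polynomial.coeToPowerSeries.ringHom_apply, Polynomial.coe_X,
        HahnSeries.ofPowerSeries_X, kt_X]
  rw [h, RingHom.comp_apply, Polynomial.coeToPowerSeries.ringHom_apply] at hp
  have h2 : (p : PowerSeries k) = 0 := HahnSeries.ofPowerSeries_injective (by rw [hp, map_zero])
  exact_mod_cast h2

private theorem exists_lift {A K L : Type} [CommRing A] [IsDomain A] [Field K] [Algebra A K]
    [IsFractionRing A K] [Field L] (g : A →+* L) (hg : Function.Injective g) :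
    ∃ φ : K →+* L, φ.comp (algebraMap A K) = g :=
  ⟨IsFractionRing.lift hg, RingHom.ext fun p => IsFractionRing.lift_algebraMap hg p⟩

private theorem exists_phi (k : Type) [Field k] : ∃ φ : RatFunc k →+* LaurentSeries k,
    φ.comp (algebraMap k[X] (RatFunc k)) = kt k :=
  exists_lift (kt k) (kt_injective k)

private theorem phi_C {k : Type} [Field k] {φ : RatFunc k →+* LaurentSeries k}
    (hφ : φ.comp (algebraMap k[X] (RatFunc k)) = kt k) :
    φ.comp (algebraMap k (RatFunc k)) = HahnSeries.C := by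
  refine RingHom.ext fun c => ?_
  rw [RingHom.comp_apply, IsScalarTower.algebraMap_apply k k[X] (RatFunc k)]
  have h := RingHom.congr_fun hφ (C c)
  rw [RingHom.comp_apply, kt_C] at h
  exact h

end CurCM

open CurCM in
theorem cCurC (h1 : RegBStmt) (h2 : GenBStmt) (h3 : DenBStmt) (h4 : TrBStmt) : CurCStmt := by
  intro k _ _ hP S hS
  obtain ⟨φ, hφ⟩ := exists_phi k
  have hφC := phi_C hφ
  refine gen h2 h3 h4 hP φ ?_ S ?_
  · rintro x ⟨f, hf0, hf⟩
    rw [hφC] at hf
    obtain ⟨c, hc⟩ := h1 k x ⟨f, hf0, hf⟩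
    refine ⟨c, ?_⟩
    have h := RingHom.congr_fun hφC c
    rw [RingHom.comp_apply] at h
    rw [h, hc]
  · intro s hs
    obtain ⟨f, hf0, hf⟩ := hS s hs
    refine ⟨f.map (algebraMap k[X] (RatFunc k)), ?_, ?_⟩
    · rw [Ne, Polynomial.map_eq_zero_iff (IsFractionRing.injective k[X] (RatFunc k))]
      exact hf0
    · rw [eval₂_map, hφ]
      exact hf

end MP7U
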