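import Pool.Agent.Lib.MP_7f581e_U.C.Spec1
import Pool.Agent.Lib.MP_7f581e_ntR.Reg

/-!
# C41 (MP_7f581e_nt), Block C, FgC: finitely generated field extensions in characteristic `0`
-/

set_option autoImplicit false

namespace MP7U

open Polynomial

namespace FgCM

/-- Transport of an algebraic equation. -/
private theorem alg_transport {Λ : Type} [Field Λ] {𝓗 : Subfield Λ} {d : ℕ} {z : Fin d → Λ}
    (hz : AlgebraicIndependent 𝓗 z) {s : Λ}
    (hs : IsAlgebraic (Algebra.adjoin 𝓗 (Set.range z)) s) :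
    ∃ p : (MvPolynomial (Fin d) 𝓗)[X], p ≠ 0 ∧
      eval₂ (MvPolynomial.eval₂Hom 𝓗.subtype z) s p = 0 := by
  obtain ⟨p, hp0, hp⟩ := hs
  let e := hz.aevalEquiv
  refine ⟨p.map (e.symm : Algebra.adjoin 𝓗 (Set.range z) →+* MvPolynomial (Fin d) 𝓗), ?_, ?_⟩
  · rw [Ne, Polynomial.map_eq_zero_iff]
    · exact hp0
    · exact e.symm.injective
  · rw [eval₂_map]
    have h1 : (MvPolynomial.eval₂Hom 𝓗.subtype z).comp
        (e.symm : Algebra.adjoin 𝓗 (Set.range z) →+* MvPolynomial (Fin d) 𝓗) =
        algebraMap (Algebra.adjoin 𝓗 (Set.range z)) Λ := by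
      refine RingHom.ext fun x => ?_
      obtain ⟨q, rfl⟩ := e.surjective x
      rw [RingHom.comp_apply]
      have h2 : (e.symm : Algebra.adjoin 𝓗 (Set.range z) →+* MvPolynomial (Fin d) 𝓗) (e q) = q :=
        e.symm_apply_apply q
      rw [h2]
      have h3 : algebraMap (Algebra.adjoin 𝓗 (Set.range z)) Λ (e q) = MvPolynomial.aeval z q :=
        hz.algebraMap_aevalEquiv q
      rw [h3]
      rfl
    rw [h1, ← aeval_def]
    exact hp

private theorem exists_tb {Λ : Type} [Field Λ] (𝓗 : Subfield Λ) (S : Finset Λ) :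
    ∃ (d : ℕ) (z : Fin d → Λ), AlgebraicIndependent 𝓗 z ∧
      ∀ s ∈ S, IsAlgebraic (Algebra.adjoin 𝓗 (Set.range z)) s := by
  obtain ⟨u, -, hu⟩ := exists_maximal_algebraicIndependent (R := 𝓗) (A := Λ) ∅ (S : Set Λ)
    (Set.empty_subset _) ((algebraicIndependent_empty_iff ..).mpr (algebraMap 𝓗 Λ).injective)
  have hfin : u.Finite := S.finite_toSet.subset hu.prop.2
  have : Finite u := hfin
  let e := Finite.equivFin u
  refine ⟨Nat.card u, fun i => (e.symm i : Λ), ?_, ?_⟩
  · exact hu.prop.1.comp (fun i => e.symm i) e.symm.injective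
  · have hr : Set.range (fun i => (e.symm i : Λ)) = u := by
      ext x
      constructor
      · rintro ⟨i, rfl⟩
        exact (e.symm i).2
      · intro hx
        exact ⟨e ⟨x, hx⟩, congrArg Subtype.val (e.symm_apply_apply ⟨x, hx⟩)⟩
    rw [hr]
    intro s hs
    by_contra hcon
    have h1 : AlgebraicIndepOn 𝓗 id (insert s u) := by
      refine AlgebraicIndepOn.insert hu.prop.1 ?_
      rw [Set.image_id]
      exact hcon
    have h2 : insert s u ⊆ (S : Set Λ) := Set.insert_subset (by exact_mod_cast hs) hu.prop.2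
    have h3 := hu.le_of_ge (y := insert s u) ⟨h1, h2⟩ (Set.subset_insert s u)
    have h4 : s ∈ u := h3 (Set.mem_insert s u)
    exact hcon (isAlgebraic_algebraMap (⟨s, Algebra.subset_adjoin h4⟩ : Algebra.adjoin 𝓗 u))

end FgCM

open FgCM in
theorem cFgC : FgCStmt := by
  intro Λ _ _ 𝓗 S
  classical
  obtain ⟨d, z, hz, halg⟩ := exists_tb 𝓗 S
  have hinj : Function.Injective (MvPolynomial.eval₂Hom 𝓗.subtype z) := hz
  let R := MvPolynomial (Fin d) 𝓗
  let F := FractionRing R
  let ι : R →+* Λ := MvPolynomial.eval₂Hom 𝓗.subtype z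
  let _ : Algebra R Λ := ι.toAlgebra
  let _ : Algebra F Λ := (IsFractionRing.lift (A := R) (K := F) (g := ι) hinj).toAlgebra
  have htow : IsScalarTower R F Λ := IsScalarTower.of_algebraMap_eq fun r =>
    (IsFractionRing.lift_algebraMap (A := R) (K := F) (g := ι) hinj r).symm
  have hint : ∀ s ∈ (S : Set Λ), IsIntegral F s := by
    intro s hs
    obtain ⟨p, hp0, hp⟩ := alg_transport hz (halg s (by exact_mod_cast hs))
    rw [← isAlgebraic_iff_isIntegral]
    exact (IsFractionRing.isAlgebraic_iff R F Λ).mp ⟨p, hp0, hp⟩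
  let L := IntermediateField.adjoin F (S : Set Λ)
  have hfd : FiniteDimensional F L := IntermediateField.finiteDimensional_adjoin hint
  have hcz : CharZero F :=
    charZero_of_injective_ringHom (f := (algebraMap R F).comp (MvPolynomial.C : 𝓗 →+* R))
      ((IsFractionRing.injective R F).comp (MvPolynomial.C_injective _ _))
  obtain ⟨pb, hpb⟩ := MP7fR.exists_integral_powerBasis (R := R) (F := F) (L := L)
  have htf : Module.IsTorsionFree R L := by
    rw [Module.isTorsionFree_iff_algebraMap_injective, IsScalarTower.algebraMap_eq R F L]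
    exact (algebraMap F L).injective.comp (IsFractionRing.injective R F)
  have hmonic := minpoly.monic hpb
  have hroot : eval₂ ι (pb.gen : Λ) (minpoly R pb.gen) = 0 := by
    have h1 := minpoly.aeval R pb.gen
    have h2 := congrArg (algebraMap L Λ) h1
    rw [aeval_def, hom_eval₂, map_zero] at h2
    exact h2
  have hdvd : ∀ G : R[X], eval₂ ι (pb.gen : Λ) G = 0 → minpoly R pb.gen ∣ G := by
    intro G hG
    refine minpoly.isIntegrallyClosed_dvd hpb ?_
    apply (algebraMap L Λ).injective
    rw [aeval_def, hom_eval₂, map_zero]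
    exact hG
  have hrep : ∀ s ∈ S, ∃ (b : R) (G : R[X]), b ≠ 0 ∧ ι b * s = eval₂ ι (pb.gen : Λ) G := by
    intro s hs
    have hsL : s ∈ L := IntermediateField.subset_adjoin F _ (by exact_mod_cast hs)
    obtain ⟨f, hf⟩ := pb.exists_eq_aeval' (⟨s, hsL⟩ : L)
    obtain ⟨b, hb0, hb⟩ := IsLocalization.integerNormalization_spec (nonZeroDivisors R) f
    refine ⟨b, IsLocalization.integerNormalization (nonZeroDivisors R) f,
      nonZeroDivisors.ne_zero hb0, ?_⟩
    have h1 : s = eval₂ (algebraMap F Λ) (pb.gen : Λ) f := by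
      have h2 := congrArg (algebraMap L Λ) hf
      rw [aeval_def, hom_eval₂] at h2
      exact h2
    have h3 : eval₂ ι (pb.gen : Λ) (IsLocalization.integerNormalization (nonZeroDivisors R) f) =
        eval₂ (algebraMap F Λ) (pb.gen : Λ)
          ((IsLocalization.integerNormalization (nonZeroDivisors R) f).map (algebraMap R F)) := by
      rw [eval₂_map]
      congr 1
      exact (IsScalarTower.algebraMap_eq R F Λ)
    rw [h3, hb, Algebra.smul_def, eval₂_mul, ← h1]
    congr 1
    rw [Polynomial.algebraMap_apply, eval₂_C]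
    exact (IsFractionRing.lift_algebraMap (A := R) (K := F) (g := ι) hinj b).symm
  choose! b G hb hG using hrep
  refine ⟨d, z, (pb.gen : Λ), minpoly R pb.gen, ∏ s ∈ S, b s, hmonic, hroot, hdvd, ?_, ?_, ?_⟩
  · intro h0
    have hpos : 0 < (minpoly R pb.gen).natDegree := minpoly.natDegree_pos hpb
    have hne : derivative (minpoly R pb.gen) ≠ 0 := by
      intro h1
      have := natDegree_eq_zero_of_derivative_eq_zero h1
      omega
    have h2 := natDegree_le_of_dvd (hdvd _ h0) hne
    have h3 := natDegree_derivative_lt hpos.ne'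
    omega
  · change ι (∏ s ∈ S, b s) ≠ 0
    rw [Ne, map_eq_zero_iff ι hinj]
    exact Finset.prod_ne_zero_iff.mpr hb
  · intro s hs
    obtain ⟨c, hc⟩ := Finset.dvd_prod_of_mem b hs
    refine mem_TT.2 ⟨1, C c * G s, ?_⟩
    rw [pow_one, hc, eval₂_mul, eval₂_C, map_mul]
    change ι (b s) * ι c * s = ι c * eval₂ ι _ (G s)
    rw [← hG s hs]
    ring

end MP7U
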