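import Pool.Agent.Lib.MP_7f581e_U.C.Spec1

/-!
# C41, Block C: a contraction has a fixed point (helper12)
-/

set_option autoImplicit false

namespace MP7U

open Polynomial

namespace FixCM

variable {k : Type} [Field k] {Φ : PowerSeries k → PowerSeries k}

theorem step (h : ∀ (m : ℕ) (u u' : PowerSeries k), PowerSeries.X ^ m ∣ u - u' →
      PowerSeries.X ^ (m + 1) ∣ Φ u - Φ u') (m : ℕ) :
    PowerSeries.X ^ m ∣ Φ^[m + 1] 0 - Φ^[m] 0 := by
  induction m with
  | zero => simp
  | succ m ih =>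
    rw [Function.iterate_succ_apply' Φ (m + 1), Function.iterate_succ_apply' Φ m]
    rw [Function.iterate_succ_apply' Φ m] at ih
    exact h m _ _ ih

theorem steps (h : ∀ (m : ℕ) (u u' : PowerSeries k), PowerSeries.X ^ m ∣ u - u' →
      PowerSeries.X ^ (m + 1) ∣ Φ u - Φ u') {m n : ℕ} (hmn : m ≤ n) :
    PowerSeries.X ^ m ∣ Φ^[n] 0 - Φ^[m] 0 := by
  induction n, hmn using Nat.le_induction with
  | base => simp
  | succ n hn ih =>
    have h1 := (pow_dvd_pow PowerSeries.X hn).trans (step h n)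
    have := dvd_add h1 ih
    rwa [sub_add_sub_cancel] at this

end FixCM

theorem cFixC : FixCStmt := by
  intro k _ Φ h
  set u : PowerSeries k := PowerSeries.mk fun n => PowerSeries.coeff n (Φ^[n + 1] 0) with hu
  have h1 : ∀ m, PowerSeries.X ^ m ∣ u - Φ^[m] 0 := fun m => by
    rw [PowerSeries.X_pow_dvd_iff]
    intro n hn
    have h2 := (PowerSeries.X_pow_dvd_iff.1 (FixCM.steps h (Nat.succ_le_of_lt hn))) n
      (Nat.lt_succ_self n)
    rw [map_sub, sub_eq_zero] at h2 ⊢
    rw [hu, PowerSeries.coeff_mk, h2]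
  refine ⟨u, ?_⟩
  rw [← sub_eq_zero]
  ext m
  have h2 := h m _ _ (h1 m)
  have h3 := h1 (m + 1)
  rw [Function.iterate_succ_apply'] at h3
  have h4 := dvd_sub h2 h3
  rw [sub_sub_sub_cancel_right] at h4
  exact PowerSeries.X_pow_dvd_iff.1 h4 m (Nat.lt_succ_self m)

end MP7U
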