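import Pool.Agent.Lib.MP_7f581e_U.C.Spec1

/-!
# C41 (MP_7f581e_nt), Block C, module HenC: a simple root persists
-/

set_option autoImplicit false

namespace MP7U

open Polynomial

namespace HenCM

variable {k : Type} [Field k]

theorem cls_iff {N : ℤ} {z : LaurentSeries k} : Cls N z ↔
    ∃ f : PowerSeries k, z = HahnSeries.single N 1 * (f : LaurentSeries k) := by
  constructor
  · intro h
    refine ⟨PowerSeries.mk (fun n => z.coeff (N + n)), ?_⟩
    ext m
    rw [HahnSeries.coeff_single_mul, one_mul, PowerSeries.coeff_coe]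
    split_ifs with hm
    · exact h m (by omega)
    · rw [PowerSeries.coeff_mk]
      congr 1
      omega
  · rintro ⟨f, rfl⟩ m hm
    rw [HahnSeries.coeff_single_mul, one_mul, PowerSeries.coeff_coe, if_pos (by omega)]

theorem cls_mono {N M : ℤ} {z : LaurentSeries k} (h : Cls M z) (hNM : N ≤ M) : Cls N z :=
  fun m hm => h m (lt_of_lt_of_le hm hNM)

theorem cls_zero (N : ℤ) : Cls N (0 : LaurentSeries k) := fun m _ => HahnSeries.coeff_zero

theorem cls_add {N : ℤ} {z w : LaurentSeries k} (h : Cls N z) (h' : Cls N w) : Cls N (z + w) := by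
  intro m hm
  rw [HahnSeries.coeff_add, h m hm, h' m hm, add_zero]

theorem cls_sub {N : ℤ} {z w : LaurentSeries k} (h : Cls N z) (h' : Cls N w) : Cls N (z - w) := by
  intro m hm
  rw [HahnSeries.coeff_sub, h m hm, h' m hm, sub_zero]

theorem cls_mul {N M : ℤ} {z w : LaurentSeries k} (h : Cls N z) (h' : Cls M w) :
    Cls (N + M) (z * w) := by
  obtain ⟨f, rfl⟩ := cls_iff.1 h
  obtain ⟨g, rfl⟩ := cls_iff.1 h'
  refine cls_iff.2 ⟨f * g, ?_⟩
  rw [PowerSeries.coe_mul]
  have : (HahnSeries.single (N + M) (1 : k)) = HahnSeries.single N 1 * HahnSeries.single M 1 := by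
    rw [HahnSeries.single_mul_single, mul_one]
  rw [this]
  ring

theorem cls_natCast_mul {N : ℤ} {z : LaurentSeries k} (c : ℕ) (h : Cls N z) :
    Cls N ((c : LaurentSeries k) * z) := by
  rw [← nsmul_eq_mul]
  intro m hm
  rw [HahnSeries.coeff_nsmul, Pi.smul_apply, h m hm, smul_zero]

theorem cls_sum {ι : Type} (s : Finset ι) {N : ℤ} {z : ι → LaurentSeries k}
    (h : ∀ i ∈ s, Cls N (z i)) : Cls N (∑ i ∈ s, z i) := by
  classical
  induction s using Finset.induction_on with
  | empty => simpa using cls_zero N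
  | insert a s ha ih =>
    rw [Finset.sum_insert ha]
    exact cls_add (h a (Finset.mem_insert_self a s))
      (ih fun i hi => h i (Finset.mem_insert_of_mem hi))

theorem exists_cls (z : LaurentSeries k) : ∃ A : ℕ, Cls (-(A : ℤ)) z := by
  refine ⟨(z.order).natAbs, fun m hm => ?_⟩
  apply HahnSeries.coeff_eq_zero_of_lt_order
  omega

theorem exists_cls_fin (n : ℕ) (z : ℕ → LaurentSeries k) :
    ∃ A : ℕ, ∀ i ≤ n, Cls (-(A : ℤ)) (z i) := by
  induction n with
  | zero =>
    obtain ⟨A, hA⟩ := exists_cls (z 0)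
    exact ⟨A, fun i hi => by rw [Nat.le_zero.1 hi]; exact hA⟩
  | succ n ih =>
    obtain ⟨A, hA⟩ := ih
    obtain ⟨A', hA'⟩ := exists_cls (z (n + 1))
    refine ⟨max A A', fun i hi => ?_⟩
    rcases Nat.lt_or_ge n i with h | h
    · have : i = n + 1 := by omega
      rw [this]
      exact cls_mono hA' (by have := le_max_right A A'; omega)
    · exact cls_mono (hA i h) (by have := le_max_left A A'; omega)

/-- the coefficients of the Taylor expansion depend continuously on the polynomial -/
theorem cls_taylor {n : ℕ} {N : ℤ} {B : ℕ} {θ : LaurentSeries k} {r : (LaurentSeries k)[X]}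
    (hr : r.natDegree ≤ n) (hN : ∀ i, Cls N (r.coeff i)) (hB : ∀ i ≤ n, Cls (-(B : ℤ)) (θ ^ i))
    (j : ℕ) : Cls (N - B) ((taylor θ r).coeff j) := by
  have h1 : taylor θ r = ∑ i ∈ Finset.range (n + 1), C (r.coeff i) * (X + C θ) ^ i := by
    rw [taylor_apply, comp, eval₂_eq_sum_range' C (Nat.lt_succ_of_le hr)]
  rw [h1, finset_sum_coeff]
  apply cls_sum
  intro i hi
  rw [Finset.mem_range] at hi
  rw [coeff_C_mul, coeff_X_add_C_pow]
  have h2 : r.coeff i * (θ ^ (i - j) * ((i.choose j : ℕ) : LaurentSeries k)) =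
      ((i.choose j : ℕ) : LaurentSeries k) * (r.coeff i * θ ^ (i - j)) := by ring
  rw [h2]
  apply cls_natCast_mul
  exact cls_mul (hN i) (hB (i - j) (by omega))

/-- a power series divisible by `X` -/
theorem cls_one {z : LaurentSeries k} (h : Cls 1 z) :
    ∃ b : PowerSeries k, PowerSeries.X ∣ b ∧ z = (b : LaurentSeries k) := by
  obtain ⟨f, hf⟩ := cls_iff.1 h
  refine ⟨PowerSeries.X * f, dvd_mul_right _ _, ?_⟩
  rw [hf, PowerSeries.coe_mul, PowerSeries.coe_X]

end HenCM

open HenCM in
theorem cHenC (h1 : FixCStmt) : HenCStmt := by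
  classical
  intro k _ p n θ hpn hp0 hp1
  obtain ⟨B, hB⟩ := exists_cls_fin n (fun i => θ ^ i)
  obtain ⟨A, hA⟩ := exists_cls_fin n (fun i => (taylor θ p).coeff i)
  obtain ⟨δ, hδ⟩ : ∃ δ, δ = (derivative p).eval θ := ⟨_, rfl⟩
  rw [← hδ] at hp1
  obtain ⟨E, hE⟩ := exists_cls (δ⁻¹)
  -- the degree is positive
  have hn1 : 1 ≤ n := by
    by_contra h
    apply hp1
    rw [hδ, natDegree_eq_zero.1 (by omega : p.natDegree = 0) |>.choose_spec.symm]
    simp
  obtain ⟨M, hM⟩ : ∃ M : ℕ, M = A + E + 1 := ⟨_, rfl⟩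
  refine ⟨(B + M + E + 1 : ℕ), ?_⟩
  intro q hqn hq
  -- the differences of the Taylor coefficients
  have hdiff : ∀ j, Cls ((M + E + 1 : ℕ) : ℤ) ((taylor θ q).coeff j - (taylor θ p).coeff j) := by
    intro j
    have h := cls_taylor (θ := θ) (r := q - p) (B := B) (n := n)
      (le_trans (natDegree_sub_le q p) (max_le hqn hpn))
      (fun i => by rw [coeff_sub]; exact hq i) hB j
    rw [map_sub, coeff_sub] at h
    exact cls_mono h (by push_cast; omega)
  have ht0 : (taylor θ p).coeff 0 = 0 := by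
    rw [taylor_coeff_zero, hp0]
  have ht1 : (taylor θ p).coeff 1 = δ := by
    rw [taylor_coeff_one, hδ]
  -- the normalized coefficients
  let T : ℤ → LaurentSeries k := fun m => HahnSeries.single m 1
  have hT : ∀ a b : ℤ, T a * T b = T (a + b) := fun a b => by
    show HahnSeries.single a (1 : k) * HahnSeries.single b 1 = HahnSeries.single (a + b) 1
    rw [HahnSeries.single_mul_single, mul_one]
  have hT0 : T 0 = 1 := rfl
  have hTc : ∀ a : ℤ, Cls a (T a) := fun a => cls_iff.2 ⟨1, by
    show HahnSeries.single a (1 : k) = _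
    rw [PowerSeries.coe_one, mul_one]⟩
  let a : ℕ → LaurentSeries k := fun j => (taylor θ q).coeff j * T ((M : ℤ) * (j - 1)) * δ⁻¹
  have ha : ∀ j ≤ n, ∃ b : PowerSeries k, PowerSeries.X ∣ b ∧
      a j = (if j = 1 then 1 else 0) + (b : LaurentSeries k) := by
    intro j hj
    have key : Cls 1 (a j - if j = 1 then 1 else 0) := by
      by_cases hj1 : j = 1
      · subst hj1
        rw [if_pos rfl]
        have e1 : a 1 - 1 = ((taylor θ q).coeff 1 - (taylor θ p).coeff 1) * δ⁻¹ := by
          show (taylor θ q).coeff 1 * T ((M : ℤ) * ((1 : ℕ) - 1)) * δ⁻¹ - 1 = _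
          have : (M : ℤ) * (((1 : ℕ) : ℤ) - 1) = 0 := by simp
          rw [this, hT0, mul_one, ht1, sub_mul, mul_inv_cancel₀ hp1]
        rw [e1]
        exact cls_mono (cls_mul (hdiff 1) hE) (by push_cast; omega)
      · rw [if_neg hj1, sub_zero]
        show Cls 1 ((taylor θ q).coeff j * T ((M : ℤ) * (j - 1)) * δ⁻¹)
        rcases Nat.eq_zero_or_pos j with hj0 | hj0
        · subst hj0
          have h0 := hdiff 0
          rw [ht0, sub_zero] at h0
          have h2 := cls_mul (cls_mul h0 (hTc ((M : ℤ) * (((0 : ℕ) : ℤ) - 1)))) hE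
          refine cls_mono h2 ?_
          push_cast
          linarith
        · have hj2 : 2 ≤ j := by omega
          have h0 : Cls (-(A : ℤ)) ((taylor θ q).coeff j) := by
            have e2 : (taylor θ q).coeff j =
                ((taylor θ q).coeff j - (taylor θ p).coeff j) + (taylor θ p).coeff j := by ring
            rw [e2]
            exact cls_add (cls_mono (hdiff j) (by push_cast; omega)) (hA j hj)
          have h2 := cls_mul (cls_mul h0 (hTc ((M : ℤ) * ((j : ℤ) - 1)))) hE
          refine cls_mono h2 ?_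
          have h3 : (M : ℤ) ≤ (M : ℤ) * ((j : ℤ) - 1) := by
            have : (1 : ℤ) ≤ (j : ℤ) - 1 := by omega
            nlinarith
          have h4 : (M : ℤ) = A + E + 1 := by rw [hM]; push_cast; ring
          linarith
    obtain ⟨b, hb, hb'⟩ := cls_one key
    refine ⟨b, hb, ?_⟩
    rw [← hb']
    ring
  -- choose the power series
  have ha' : ∀ j, ∃ b : PowerSeries k, PowerSeries.X ∣ b ∧
      (j ≤ n → a j = (if j = 1 then 1 else 0) + (b : LaurentSeries k)) := by
    intro j
    by_cases hj : j ≤ n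
    · obtain ⟨b, hb, hb'⟩ := ha j hj
      exact ⟨b, hb, fun _ => hb'⟩
    · exact ⟨0, dvd_zero _, fun h => absurd h hj⟩
  choose b hbX hba using ha'
  obtain ⟨u, hu⟩ := h1 k (fun u => -∑ j ∈ Finset.range (n + 1), b j * u ^ j) (by
    intro m u u' huu
    have e : (-∑ j ∈ Finset.range (n + 1), b j * u ^ j) - (-∑ j ∈ Finset.range (n + 1), b j * u' ^ j) =
        ∑ j ∈ Finset.range (n + 1), b j * (u' ^ j - u ^ j) := by
      rw [neg_sub_neg, ← Finset.sum_sub_distrib]
      refine Finset.sum_congr rfl fun j _ => ?_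
      ring
    show PowerSeries.X ^ (m + 1) ∣ (-∑ j ∈ Finset.range (n + 1), b j * u ^ j) -
      (-∑ j ∈ Finset.range (n + 1), b j * u' ^ j)
    rw [e]
    apply Finset.dvd_sum
    intro j _
    rw [pow_succ, mul_comm (PowerSeries.X ^ m)]
    apply mul_dvd_mul (hbX j)
    have h2 : u - u' ∣ u ^ j - u' ^ j := sub_dvd_pow_sub_pow u u' j
    have h3 : u' ^ j - u ^ j = -(u ^ j - u' ^ j) := by ring
    rw [h3, dvd_neg]
    exact dvd_trans huu h2)
  -- the root
  refine ⟨θ + T M * (u : LaurentSeries k), ?_⟩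
  have hsum : ∑ j ∈ Finset.range (n + 1), a j * (u : LaurentSeries k) ^ j = 0 := by
    have e1 : ∑ j ∈ Finset.range (n + 1), a j * (u : LaurentSeries k) ^ j =
        ∑ j ∈ Finset.range (n + 1), ((if j = 1 then (u : LaurentSeries k) ^ j else 0) +
          (b j : LaurentSeries k) * (u : LaurentSeries k) ^ j) := by
      refine Finset.sum_congr rfl fun j hj => ?_
      rw [hba j (by rw [Finset.mem_range] at hj; omega)]
      split_ifs <;> ring
    rw [e1, Finset.sum_add_distrib, Finset.sum_ite_eq' (Finset.range (n + 1)) 1, if_pos (by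
      rw [Finset.mem_range]; omega), pow_one]
    have e2 : (u : LaurentSeries k) = -∑ j ∈ Finset.range (n + 1),
        (b j : LaurentSeries k) * (u : LaurentSeries k) ^ j := by
      conv_lhs => rw [← hu]
      simp only [map_neg, map_sum, map_mul, map_pow]
    nth_rw 1 [e2]
    ring
  have heval : q.eval (θ + T M * (u : LaurentSeries k)) =
      ∑ j ∈ Finset.range (n + 1), (taylor θ q).coeff j * (T M * (u : LaurentSeries k)) ^ j := by
    have hd : (taylor θ q).natDegree < n + 1 := by rw [natDegree_taylor]; omega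
    rw [add_comm, ← taylor_eval, eval_eq_sum_range' hd]
  rw [heval]
  have hTpow : ∀ j : ℕ, (T M) ^ j = T (M * j) := by
    intro j
    induction j with
    | zero => simp [hT0]
    | succ j ih =>
      rw [pow_succ, ih, hT]
      have : (M : ℤ) * (j : ℤ) + M = M * ((j + 1 : ℕ) : ℤ) := by push_cast; ring
      rw [this]
  have hterm : ∀ j ∈ Finset.range (n + 1),
      (taylor θ q).coeff j * (T M * (u : LaurentSeries k)) ^ j =
        δ * T M * (a j * (u : LaurentSeries k) ^ j) := by
    intro j _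
    show _ = δ * T M * ((taylor θ q).coeff j * T ((M : ℤ) * (j - 1)) * δ⁻¹ *
      (u : LaurentSeries k) ^ j)
    rw [mul_pow, hTpow]
    have e3 : T (M * j) = T M * T ((M : ℤ) * (j - 1)) := by
      rw [hT]
      congr 1
      ring
    rw [e3]
    have e4 : δ * δ⁻¹ = 1 := mul_inv_cancel₀ hp1
    linear_combination (-(taylor θ q).coeff j * T M * T ((M : ℤ) * (j - 1)) *
      (u : LaurentSeries k) ^ j) * e4
  rw [Finset.sum_congr rfl hterm, ← Finset.mul_sum, hsum, mul_zero]

end MP7U
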