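import Pool.Agent.Lib.MP_7f581e_U.C.Spec1

/-!
# C41 (MP_7f581e_nt), Block C, SpcC: finitely generated subrings of `k((t))` have points in `𝓗`
-/

set_option autoImplicit false

namespace MP7U

open Polynomial

namespace SpcCM

private theorem cls_mono {k : Type} [Field k] {N M : ℤ} {z : LaurentSeries k} (h : N ≤ M)
    (hz : Cls M z) : Cls N z := fun m hm => hz m (lt_of_lt_of_le hm h)

private theorem eval_map' {Λ : Type} [Field Λ] {𝓗 : Subfield Λ} {d : ℕ} (z : Fin d → Λ)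
    (Q : MvPolynomial (Fin d) 𝓗) :
    MvPolynomial.eval z (MvPolynomial.map 𝓗.subtype Q) =
      MvPolynomial.eval₂Hom 𝓗.subtype z Q := by
  rw [MvPolynomial.eval_map]
  rfl

end SpcCM

open SpcCM in
theorem cSpcC (h1 : HenCStmt) (h2 : ConCStmt) (h3 : AppCStmt) (h4 : FgCStmt) (h5 : TrBStmt) :
    SpcCStmt := by
  intro k _ _ 𝓗 hC ht hcl S
  classical
  have hcz : CharZero (LaurentSeries k) :=
    charZero_of_injective_ringHom (f := (HahnSeries.C : k →+* LaurentSeries k))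
      HahnSeries.C_injective
  obtain ⟨d, z, θ, P, D, hPm, hroot, hdvd, hder, hD, hS⟩ := h4 (LaurentSeries k) 𝓗 S
  let ι : MvPolynomial (Fin d) 𝓗 →+* LaurentSeries k := MvPolynomial.eval₂Hom 𝓗.subtype z
  obtain ⟨N, hN⟩ := h1 k (P.map ι) P.natDegree θ natDegree_map_le
    (by rw [eval_map]; exact hroot) (by rw [derivative_map, eval_map]; exact hder)
  have hDm : ∃ m, (ι D).coeff m ≠ 0 := by
    by_contra hcon
    push Not at hcon
    exact hD (HahnSeries.ext (funext hcon))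
  obtain ⟨m, hm⟩ := hDm
  choose Mi hMi using fun i : ℕ =>
    h2 k d (MvPolynomial.map 𝓗.subtype (P.coeff i)) z N
  obtain ⟨MD, hMD⟩ := h2 k d (MvPolynomial.map 𝓗.subtype D) z (m + 1)
  obtain ⟨M, hM1, hM2⟩ : ∃ M : ℤ, MD ≤ M ∧ ∀ i ∈ Finset.range (P.natDegree + 1), Mi i ≤ M := by
    obtain ⟨M0, hM0⟩ := ((Finset.range (P.natDegree + 1)).image Mi).bddAbove
    refine ⟨max MD M0, le_max_left _ _, fun i hi => ?_⟩
    exact le_trans (hM0 (by
      rw [Finset.mem_coe]
      exact Finset.mem_image_of_mem Mi hi)) (le_max_right _ _)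
  choose z' hz' hz'' using fun i : Fin d => h3 k 𝓗 hC ht (z i) M
  let ψ₀ : MvPolynomial (Fin d) 𝓗 →+* 𝓗 :=
    MvPolynomial.eval₂Hom (RingHom.id 𝓗) (fun i => (⟨z' i, hz' i⟩ : 𝓗))
  have hψ₀ : ∀ Q, (ψ₀ Q : LaurentSeries k) = MvPolynomial.eval₂Hom 𝓗.subtype z' Q := by
    intro Q
    have h : 𝓗.subtype.comp ψ₀ = MvPolynomial.eval₂Hom 𝓗.subtype z' := by
      refine MvPolynomial.ringHom_ext (fun r => ?_) (fun i => ?_)
      · simp [ψ₀]
      · simp [ψ₀]
    exact RingHom.congr_fun h Q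
  have hψcomp : 𝓗.subtype.comp ψ₀ = MvPolynomial.eval₂Hom 𝓗.subtype z' := RingHom.ext hψ₀
  obtain ⟨θ', hθ'⟩ := hN (P.map (MvPolynomial.eval₂Hom 𝓗.subtype z')) natDegree_map_le (by
    intro i
    rw [coeff_map, coeff_map]
    by_cases hi : i ∈ Finset.range (P.natDegree + 1)
    · have h := hMi i z' (fun j => cls_mono (hM2 i hi) (hz'' j))
      rw [eval_map', eval_map'] at h
      exact h
    · rw [Finset.mem_range, not_lt] at hi
      rw [coeff_eq_zero_of_natDegree_lt (by omega), map_zero, map_zero, sub_zero]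
      intro j _
      rfl)
  have hθ'' : eval₂ 𝓗.subtype θ' (P.map ψ₀) = 0 := by
    rw [eval₂_map, hψcomp, ← eval_map]
    exact hθ'
  have hmem : θ' ∈ 𝓗 := hcl θ' ⟨P.map ψ₀, (hPm.map ψ₀).ne_zero, hθ''⟩
  have hψD : ψ₀ D ≠ 0 := by
    intro h0
    have h := hMD z' (fun j => cls_mono hM1 (hz'' j))
    rw [eval_map', eval_map', ← hψ₀, h0] at h
    have h' := h m (by omega)
    have h'' : (ι D).coeff m = 0 := by
      have : ((0 : 𝓗) : LaurentSeries k) - ι D = - ι D := by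
        rw [ZeroMemClass.coe_zero, zero_sub]
      rw [show MvPolynomial.eval₂Hom 𝓗.subtype z D = ι D from rfl, this] at h'
      rw [HahnSeries.coeff_neg, neg_eq_zero] at h'
      exact h'
    exact hm h''
  obtain ⟨ψ, -⟩ := h5 (MvPolynomial (Fin d) 𝓗) (LaurentSeries k) 𝓗 ι θ D P hdvd ψ₀ ⟨θ', hmem⟩ hψD
    (by
      apply 𝓗.subtype.injective
      rw [map_zero, hom_eval₂]
      rw [eval₂_map] at hθ''
      exact hθ'')
  have hle : cl S ≤ TT ι θ D := Subring.closure_le.mpr fun s hs => hS s (by exact_mod_cast hs)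
  exact ⟨𝓗.subtype.comp (ψ.comp (Subring.inclusion hle)), fun x => SetLike.coe_mem _⟩

end MP7U
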