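import Pool.Agent.Lib.MP_7f581e_U.A.All
import Pool.Agent.Lib.MP_7f581e_U.B.All
import Pool.Agent.Lib.MP_7f581e_U.C.FixC
import Pool.Agent.Lib.MP_7f581e_U.C.HenC
import Pool.Agent.Lib.MP_7f581e_U.C.ConC
import Pool.Agent.Lib.MP_7f581e_U.C.AppC
import Pool.Agent.Lib.MP_7f581e_U.C.FgC
import Pool.Agent.Lib.MP_7f581e_U.C.SpcC
import Pool.Agent.Lib.MP_7f581e_U.C.CurC
import Pool.Agent.Lib.MP_7f581e_U.C.AllC

/-!
# C41 (MP_7f581e_nt), Block C, assembly
-/

set_option autoImplicit false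

namespace MP7U

theorem xFixC : FixCStmt := cFixC

theorem xHenC : HenCStmt := cHenC xFixC

theorem xConC : ConCStmt := cConC

theorem xAppC : AppCStmt := cAppC

theorem xFgC : FgCStmt := cFgC

theorem xSpcC : SpcCStmt := cSpcC xHenC xConC xAppC xFgC xTrB

theorem xCurC : CurCStmt := cCurC xRegB xGenB xDenB xTrB

theorem xAllC : AllCStmt := cAllC xSpcC xCurC

end MP7U
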