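import Pool.Agent.Lib.MP_7f581e_U.B.Spec1
import Pool.Agent.Lib.MP_7f581e_U.A.Spec1

/-!
# C41 (MP_7f581e_nt), Block C: points of finitely generated subrings of `k((t))` over a PAC field `k`

One Lean task for each `def XStmt : Prop`: file `MP_7f581e_U/C/X.lean`, import this file,
`namespace MP7U`, `theorem cX : XStmt` (statements which are used are hypotheses, in the order of
the docstring: `theorem cX (h1 : AStmt) (h2 : BStmt) : XStmt`).
-/

set_option autoImplicit false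

namespace MP7U

open Polynomial

/-- The map `k[X] → k((t))`, `X ↦ t`. -/
noncomputable def kt (k : Type) [Field k] : k[X] →+* LaurentSeries k :=
  (aeval (HahnSeries.single 1 1 : LaurentSeries k) : k[X] →ₐ[k] LaurentSeries k).toRingHom

/-- `z ∈ t^N k⟦t⟧`. -/
def Cls {k : Type} [Field k] (N : ℤ) (z : LaurentSeries k) : Prop := ∀ m < N, z.coeff m = 0

/-- **FixC.** (60 lines)  A contraction has a fixed point.

*Proof.*  `U 0 = 0`, `U (m + 1) = Φ (U m)`; `X^m ∣ U (m + 1) - U m` by induction.  `u = mk (fun n => coeff n (U (n + 1)))`; then `X^m ∣ u - U m` for all `m` (`PowerSeries.X_pow_dvd_iff`, and `coeff n (U (m)) = coeff n (U (n + 1))` for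
`m > n`).  So `X^(m+1)` divides `Φ u - Φ (U m) = Φ u - U (m + 1)` and `u - U (m + 1)`, so it divides `Φ u - u`, for all `m`; so `Φ u = u`. -/
def FixCStmt : Prop :=
  ∀ (k : Type) [Field k] (Φ : PowerSeries k → PowerSeries k),
    (∀ (m : ℕ) (u u' : PowerSeries k), PowerSeries.X ^ m ∣ u - u' →
      PowerSeries.X ^ (m + 1) ∣ Φ u - Φ u') → ∃ u, Φ u = u

/-- **HenC.** (250 lines)  Uses FixC.  A simple root persists under small changes of the polynomial.

*Proof.*  `taylor θ q = q(X + θ) = ∑_{j ≤ n} q_j X^j`, `q_j = ∑_{i ≥ j} binom(i, j) θ^(i-j) coeff i q` (`Polynomial.taylor_coeff`, `hasseDeriv`), and `p_j` for `p`; `p_0 = 0`, `p_1 = δ ≠ 0`.  Let `δ = t^e δ'`, `δ'` a unit of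
`k⟦t⟧` (`e` the order), `B ≥ 0` with `Cls (-B)` for all `θ^i`, `i ≤ n`, and `A ≥ 0` with `Cls (-A)` for all `p_j`.  Put `M = max (A + e + 1) 0` and `N` with `N - B ≥ max (e + M + 1) (e + 1)` and `N ≥ B - A`.  Let `q` be as in the
statement; then `Cls (N - B) (q_j - p_j)`.  Put `a_j = q_j t^(M (j-1)) / δ` (`j = 0, ..., n`; `M (j - 1)` as an integer).  `a_0 ∈ t k⟦t⟧` (order of `q_0 = q_0 - p_0` is `≥ e + M + 1`), `a_1 - 1 ∈ t k⟦t⟧`, and `a_j ∈ t k⟦t⟧` for `j ≥ 2`
(`-A + M (j - 1) - e ≥ 1`).  So with power series `b_0 = a_0`, `b_1 = a_1 - 1`, `b_j = a_j`, all divisible by `X`, the map `Φ u = - ∑ b_j u^j` satisfies the hypothesis of FixC (`u - u' ∣ u^j - u'^j`).  Its fixed point `u` satisfies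
`∑ a_j u^j = 0`, so `q(θ + t^M u) = ∑ q_j t^(M j) u^j = δ t^M ∑ a_j u^j = 0`. -/
def HenCStmt : Prop :=
  ∀ (k : Type) [Field k] (p : (LaurentSeries k)[X]) (n : ℕ) (θ : LaurentSeries k),
    p.natDegree ≤ n → p.eval θ = 0 → (derivative p).eval θ ≠ 0 →
    ∃ N : ℤ, ∀ q : (LaurentSeries k)[X], q.natDegree ≤ n →
      (∀ i, Cls N (q.coeff i - p.coeff i)) → ∃ θ', q.eval θ' = 0

/-- **ConC.** (100 lines)  Polynomials are continuous.

*Proof.*  Induction on `Q` (`MvPolynomial.induction_on`).  Constants: trivial.  Sums: the larger `M`.  `Q * X i`: `Q(z') z'_i - Q(z) z_i = (Q(z') - Q(z)) z'_i + Q(z) (z'_i - z_i)`.  If `Cls (-A) (z i)`, `Cls (-A') (Q(z))`, choose `M` for `Q` and `N + A` (and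
`M ≥ -A`, so `Cls (-A) (z'_i)`), and `M ≥ N + A'`.  (`Cls a x → Cls b y → Cls (a + b) (x * y)`, e.g. by `HahnSeries.coeff_mul`, or write `x = t^a f`, `f ∈ k⟦t⟧`; every `z` satisfies
`Cls (-A)` for some `A`.) -/
def ConCStmt : Prop :=
  ∀ (k : Type) [Field k] (d : ℕ) (Q : MvPolynomial (Fin d) (LaurentSeries k))
    (z : Fin d → LaurentSeries k) (N : ℤ), ∃ M : ℤ, ∀ z' : Fin d → LaurentSeries k,
    (∀ i, Cls M (z' i - z i)) → Cls N (MvPolynomial.eval z' Q - MvPolynomial.eval z Q)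

/-- **AppC.** (50 lines)  Approximation.

*Proof.*  `z' = ∑_{m < N} single m (z.coeff m)`, a finite sum (`z.coeff m = 0` for `m` small); `single m c = C c * t^m ∈ 𝓗`. -/
def AppCStmt : Prop :=
  ∀ (k : Type) [Field k] (𝓗 : Subfield (LaurentSeries k)), (∀ c : k, HahnSeries.C c ∈ 𝓗) →
    HahnSeries.single 1 1 ∈ 𝓗 → ∀ (z : LaurentSeries k) (N : ℤ), ∃ z' ∈ 𝓗, Cls N (z' - z)

/-- **FgC.** (200 lines)  Finitely generated field extensions in characteristic `0`.

*Proof.*  `F = IntermediateField.adjoin 𝓗 S ⊆ Λ`.  Choose a maximal subset of `S` which is algebraically independent over `𝓗` (finite set; `exists_isTranscendenceBasis_subset`-like, or `AlgebraicIndependent` maximal), enumerate it as `z : Fin d → Λ`.  Let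
`R = MvPolynomial (Fin d) 𝓗`, `ι = eval₂Hom 𝓗.subtype z : R → Λ`, injective, with field of fractions `F₀ = 𝓗(z) ⊆ F`.  All `s ∈ S` are algebraic over `F₀`, so `F / F₀` is finite, and separable (characteristic `0`).
`MP7fR.exists_integral_powerBasis` (file `Pool/Agent/Lib/MP_7f581e_ntR/Reg.lean`; `R`, `F₀`, `L = F`) gives `θ ∈ F` integral over `R` with `F = F₀(θ)`.  `P = minpoly R θ`; `R` is integrally closed (a UFD), so
`P ∣ G` whenever `G(θ) = 0` (`minpoly.isIntegrallyClosed_dvd`), `P'(θ) ≠ 0` (the degree of `P'` is smaller and `P' ≠ 0`: characteristic `0`, `natDegree P ≥ 1`).  Every `s ∈ S` is `∑ r_j θ^j`, `r_j ∈ F₀`;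
`D` a common denominator. -/
def FgCStmt : Prop :=
  ∀ (Λ : Type) [Field Λ] [CharZero Λ] (𝓗 : Subfield Λ) (S : Finset Λ),
    ∃ (d : ℕ) (z : Fin d → Λ) (θ : Λ) (P : (MvPolynomial (Fin d) 𝓗)[X])
      (D : MvPolynomial (Fin d) 𝓗),
      let ι : MvPolynomial (Fin d) 𝓗 →+* Λ := MvPolynomial.eval₂Hom 𝓗.subtype z
      P.Monic ∧ eval₂ ι θ P = 0 ∧ (∀ G, eval₂ ι θ G = 0 → P ∣ G) ∧
      eval₂ ι θ (derivative P) ≠ 0 ∧ ι D ≠ 0 ∧ ∀ s ∈ S, s ∈ TT ι θ D

/-- **SpcC.** (150 lines)  Uses HenC, ConC, AppC, FgC, TrB (block B) in this order.  Finitely generated subrings of `k((t))` have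
points in `𝓗`.

*Proof.*  FgC for `Λ = k((t))` (characteristic `0`: `k → Λ` is injective).  For `z' : Fin d → Λ` let `ι' = eval₂Hom 𝓗.subtype z'`.  By ConC (for the polynomials `D` and the finitely many coefficients of `P`, mapped to
`MvPolynomial (Fin d) Λ`), HenC (`p = P.map ι`, `q = P.map ι'`, `n = natDegree P`) there is `M` such that, if `Cls M (z' i - z i)` for all `i`, then `P.map ι'` has a root `θ'` in `Λ` and `ι' D ≠ 0` (`ι D` has a nonzero coefficient at some `m`; take `N > m`).  Choose such `z'`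
with `z' i ∈ 𝓗` (AppC).  The coefficients of `P.map ι'` are in `𝓗`, it is monic, so `θ'` is algebraic over `𝓗`, so `θ' ∈ 𝓗`.  TrB (`ψ₀ = ι'`) gives `ψ : TT ι θ D → Λ`, with values in `𝓗`
(`ψ w = G(θ') / (ι' D)^N`).  `cl S ⊆ TT ι θ D` (`Subring.closure_le`). -/
def SpcCStmt : Prop :=
  ∀ (k : Type) [Field k] [CharZero k] (𝓗 : Subfield (LaurentSeries k)),
    (∀ c : k, HahnSeries.C c ∈ 𝓗) → HahnSeries.single 1 1 ∈ 𝓗 →
    (∀ z : LaurentSeries k, (∃ f : 𝓗[X], f ≠ 0 ∧ eval₂ 𝓗.subtype z f = 0) → z ∈ 𝓗) →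
    ∀ S : Finset (LaurentSeries k), ∃ ρ : cl S →+* LaurentSeries k, ∀ x, ρ x ∈ 𝓗

/-- **CurC.** (150 lines)  Uses RegB (block A), GenB, DenB, TrB (block B) in this order.  Curves.

*Proof.*  `Λ = k((t))` is an algebra over `RatFunc k` by the extension of `kt k` (`kt k` is injective: the coefficients of `kt k P` are those of `P`; `RatFunc.liftRingHom`, or `open scoped RatFunc` and the instance `RatFunc.liftAlgebra`, or
`IsFractionRing.lift`).  `L = IntermediateField.adjoin (RatFunc k) S`, finite over `RatFunc k` because the elements of `S` are algebraic.  `RegL k L`: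
an element of `L ⊆ Λ` which is algebraic over `k` is a constant by RegB.  GenB: `θ`, `m`; DenB for the elements of `S`: `d ≠ 0` and `G_s` with `d s = G_s(θ)`, so `s ∈ TT (strL k L) θ d`.  `PAC k` for `m` (`natDegree m = finrank ≥ 1`) and `g = d`: `a, b ∈ k` with
`d(a) ≠ 0`, `m(a, b) = 0`.  TrB with `R = k[X]`, `ι = strL k L`, `L' = k`, `ψ₀ = evalRingHom a`, `θ' = b` (`eval₂ (evalRingHom a) b m = (m.eval (C b)).eval a`) gives `TT → k`; `cl S ⊆ Λ` maps into `TT ⊆ L` (the inclusion `L → Λ` is injective;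
`cl S ≤ (TT ..).map L.val`). -/
def CurCStmt : Prop :=
  ∀ (k : Type) [Field k] [CharZero k], PAC k → ∀ S : Finset (LaurentSeries k),
    (∀ s ∈ S, ∃ f : k[X][X], f ≠ 0 ∧ eval₂ (kt k) s f = 0) → Nonempty (cl S →+* k)

/-- **AllC.** (80 lines)  Uses SpcC, CurC.  All finitely generated subrings of `k((t))` have points in `k`.

*Proof.*  `𝓗 = {z | ∃ f : k[X][X], f ≠ 0 ∧ eval₂ (kt k) z f = 0}`: the algebraic closure of `k[t]` in `k((t))`, a subfield (give `k((t))` the `k[X]`-algebra structure `kt k`, which is injective: `IsAlgebraic k[X] z`; sums, products,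
inverses of algebraic elements are algebraic: `IsAlgebraic.add`, `.mul`, `.inv`, or `Subalgebra.algebraicClosure`); it contains the constants and `t`, and is algebraically closed in `k((t))` (transitivity of algebraic extensions, `IsAlgebraic.restrictScalars`/`Algebra.IsAlgebraic.trans`).  SpcC: `ρ : cl S → k((t))` with values in `𝓗`.  `S' = ρ(S)`, a finite set (`S.attach.image`).  `ρ` maps `cl S` to `cl S'` (`Subring.closure_induction`).  CurC for `S'`. -/
def AllCStmt : Prop :=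
  ∀ (k : Type) [Field k] [CharZero k], PAC k → ∀ S : Finset (LaurentSeries k),
    Nonempty (cl S →+* k)

end MP7U
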